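import Pool.Agent.Work.MP_333fa2_co.Numerics

/-!
# Polynomially many pendant edges on a clique make a bonbon

A red/blue colouring of the edges of the complete graph on `Fin n` is given by the graph `R` of
its red edges; the blue edges are those of `Rᶜ`.
-/

namespace Pool.Agent.Results.MP_333fa2_co.Main

open Pool.Agent.Work.MP_333fa2_co

/-- The red graph of the Turan colouring of the complete graph on `Fin n` with `r` parts: the
parts are the residue classes modulo `r`, edges inside a part are red and the edges between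
different parts are blue. -/
def turanColouring (n r : ℕ) : SimpleGraph (Fin n) where
  Adj x y := x ≠ y ∧ (x : ℕ) % r = (y : ℕ) % r
  symm := ⟨fun _ _ h => ⟨h.1.symm, h.2.symm⟩⟩
  loopless := ⟨fun _ h => h.1 rfl⟩

/-- The number of monochromatic labelled copies of `H` in the colouring with red graph `R`:
injective maps sending all edges of `H` to red edges, or all of them to blue edges. -/
noncomputable def monoCopies {V : Type*} (H : SimpleGraph V) {n : ℕ} (R : SimpleGraph (Fin n)) :
    ℕ :=
  Nat.card {f : V → Fin n // Function.Injective f ∧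
    ((∀ a b, H.Adj a b → R.Adj (f a) (f b)) ∨ (∀ a b, H.Adj a b → Rᶜ.Adj (f a) (f b)))}

/-- `H` is a bonbon: it is connected and, for all sufficiently large `n`, the colourings of the
complete graph on `n` vertices with the least number of monochromatic labelled copies of `H` are
exactly those obtained from the Turan colouring with `χ(H) - 1` parts by permuting the vertices
and possibly swapping the two colours. -/
def IsBonbon {V : Type*} (H : SimpleGraph V) : Prop :=
  H.Connected ∧ ∃ k : ℕ, H.chromaticNumber = k ∧ ∃ n0 : ℕ, ∀ n, n0 ≤ n →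
    ∀ R : SimpleGraph (Fin n), (∀ R' : SimpleGraph (Fin n), monoCopies H R ≤ monoCopies H R') ↔
      (Nonempty (R ≃g turanColouring n (k-1)) ∨ Nonempty (Rᶜ ≃g turanColouring n (k-1)))

/-- `H` is obtained from `H0` by adding pendant edges: `H0` is an induced subgraph of `H`, and
each other vertex of `H` has exactly one neighbour, which lies in `H0`. -/
def IsPendantExtension {U V : Type*} (H0 : SimpleGraph U) (H : SimpleGraph V) : Prop :=
  ∃ φ : H0 ↪g H, ∀ v, v ∉ Set.range φ → ∃ u : U, ∀ w, H.Adj v w ↔ w = φ u

open scoped Classical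

lemma monoCopies_eq {V T : Type*} [Fintype T] (H : SimpleGraph V) (K : SimpleGraph T)
    (e : K ≃g H) {n : ℕ} (R : SimpleGraph (Fin n)) : monoCopies H R = (mono K R).card := by
  unfold monoCopies
  have h2 : Nat.card {g // g ∈ mono K R} = (mono K R).card := by
    rw [Nat.card_eq_fintype_card, Fintype.card_coe]
  rw [← h2]
  refine Nat.card_congr (Equiv.subtypeEquiv (Equiv.arrowCongr e.toEquiv.symm (Equiv.refl _)) ?_)
  intro f
  have h3 : (Equiv.arrowCongr e.toEquiv.symm (Equiv.refl (Fin n))) f = fun x => f (e x) := rfl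
  rw [h3, mem_mono]
  have h4 : ∀ a : V, e (e.symm a) = a := fun a => e.apply_symm_apply a
  constructor
  · rintro ⟨hinj, h⟩
    refine ⟨fun x y hxy => e.injective (hinj hxy), ?_⟩
    rcases h with h | h
    · left; intro a b hab; exact h _ _ (e.map_adj_iff.2 hab)
    · right; intro a b hab; exact h _ _ (e.map_adj_iff.2 hab)
  · rintro ⟨hinj, h⟩
    refine ⟨?_, ?_⟩
    · intro x y hxy
      have h5 : (fun x => f (e x)) (e.symm x) = (fun x => f (e x)) (e.symm y) := by
        simp only [h4]; exact hxy
      exact e.symm.injective (hinj h5)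
    · rcases h with h | h
      · left
        intro a b hab
        have := h (e.symm a) (e.symm b) (e.symm.map_adj_iff.2 hab)
        simpa only [h4] using this
      · right
        intro a b hab
        have := h (e.symm a) (e.symm b) (e.symm.map_adj_iff.2 hab)
        simpa only [h4] using this

lemma monoCopies_iso {V : Type*} (H : SimpleGraph V) {n : ℕ} {R R' : SimpleGraph (Fin n)}
    (e : R ≃g R') : monoCopies H R = monoCopies H R' := by
  unfold monoCopies
  refine Nat.card_congr (Equiv.subtypeEquiv (Equiv.arrowCongr (Equiv.refl _) e.toEquiv) ?_)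
  intro f
  have h3 : (Equiv.arrowCongr (Equiv.refl V) e.toEquiv) f = fun x => e (f x) := rfl
  rw [h3]
  have hc : ∀ x y, R'ᶜ.Adj (e x) (e y) ↔ Rᶜ.Adj x y := by
    intro x y
    rw [SimpleGraph.compl_adj, SimpleGraph.compl_adj, e.map_adj_iff, ne_eq, ne_eq,
      e.injective.eq_iff]
  have hi : Function.Injective (fun x => e (f x)) ↔ Function.Injective f :=
    ⟨fun h x y hxy => h (congrArg e hxy), fun h x y hxy => h (e.injective hxy)⟩
  rw [hi]
  simp only [hc, e.map_adj_iff]

lemma monoCopies_compl {V : Type*} (H : SimpleGraph V) {n : ℕ} (R : SimpleGraph (Fin n)) :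
    monoCopies H Rᶜ = monoCopies H R := by
  unfold monoCopies
  refine Nat.card_congr (Equiv.subtypeEquiv (Equiv.refl _) ?_)
  intro f
  rw [compl_compl]
  simp only [Equiv.refl_apply]
  tauto

/-- Normal form of a pendant extension of a clique. -/
lemma exists_iso_pend {k : ℕ} {V : Type*} [Fintype V] (H : SimpleGraph V)
    (h : IsPendantExtension (⊤ : SimpleGraph (Fin k)) H) :
    ∃ s : ℕ, Fintype.card V = k + s ∧ ∃ a : Fin s → Fin k, Nonempty (pend a ≃g H) := by
  obtain ⟨φ, hφ⟩ := h
  have hk : Fintype.card (Set.range φ) = k := by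
    rw [Set.card_range_of_injective φ.injective, Fintype.card_fin]
  have hcard : Fintype.card V = k + Fintype.card ((Set.range φ)ᶜ : Set V) := by
    have h1 := Fintype.card_congr (Equiv.Set.sumCompl (Set.range φ))
    rw [Fintype.card_sum, hk] at h1
    exact h1.symm
  set s := Fintype.card ((Set.range φ)ᶜ : Set V) with hs
  refine ⟨s, hcard, ?_⟩
  set e2 : Fin s ≃ ((Set.range φ)ᶜ : Set V) := (Fintype.equivFin _).symm with he2
  have hex : ∀ p : Fin s, ∃ u : Fin k, ∀ w, H.Adj (e2 p : V) w ↔ w = φ u := fun p =>
    hφ _ (e2 p).2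
  choose a ha using hex
  refine ⟨a, ⟨?_⟩⟩
  set e1 : Fin k ≃ Set.range φ := Equiv.ofInjective φ φ.injective with he1
  set E : (Fin k ⊕ Fin s) ≃ V := (Equiv.sumCongr e1 e2).trans (Equiv.Set.sumCompl (Set.range φ))
    with hE
  have hEl : ∀ i, E (Sum.inl i) = φ i := by
    intro i
    simp [hE, he1]
  have hEr : ∀ p, E (Sum.inr p) = (e2 p : V) := by
    intro p
    simp [hE]
  refine ⟨E, ?_⟩
  intro x y
  rcases x with i | p <;> rcases y with j | q
  · rw [hEl, hEl, φ.map_adj_iff, pend_inl_inl]; rfl
  · rw [hEl, hEr, H.adj_comm, ha, pend_inl_inr, φ.injective.eq_iff]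
    exact eq_comm
  · rw [hEl, hEr, ha, pend_inr_inl, φ.injective.eq_iff]
    exact eq_comm
  · rw [hEr, hEr, ha]
    constructor
    · intro h
      exfalso
      exact (e2 q).2 ⟨a p, h.symm⟩
    · intro h
      exact absurd h (pend_inr_inr a p q)

lemma pend_connected {k s : ℕ} (hk : 0 < k) (a : Fin s → Fin k) : (pend a).Connected := by
  have h0 : ∀ i, (pend a).Reachable (Sum.inl ⟨0, hk⟩) (Sum.inl i) := by
    intro i
    by_cases h : (⟨0, hk⟩ : Fin k) = i
    · rw [h]
    · exact ((pend_inl_inl a _ _).2 h : (pend a).Adj _ _).reachable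
  have h1 : ∀ z, (pend a).Reachable (Sum.inl ⟨0, hk⟩) z := by
    intro z
    rcases z with i | p
    · exact h0 i
    · exact (h0 (a p)).trans ((pend_inl_inr a (a p) p).2 rfl : (pend a).Adj _ _).reachable
  have : Nonempty (Fin k ⊕ Fin s) := ⟨Sum.inl ⟨0, hk⟩⟩
  exact SimpleGraph.Connected.mk (fun x y => (h1 x).symm.trans (h1 y))

lemma pend_chromatic {k s : ℕ} (hk : 2 ≤ k) (a : Fin s → Fin k) :
    (pend a).chromaticNumber = k := by
  apply le_antisymm
  · have hcol : (pend a).Colorable k := by
      refine ⟨SimpleGraph.Coloring.mk (fun z => match z with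
        | .inl i => i
        | .inr p => if a p = ⟨0, by omega⟩ then ⟨1, by omega⟩ else ⟨0, by omega⟩) ?_⟩
      intro x y hxy
      rcases x with i | p <;> rcases y with j | q
      · exact hxy
      · rw [pend_inl_inr] at hxy
        subst hxy
        intro h
        simp only at h
        split_ifs at h with h1
        · rw [h1] at h
          simp at h
        · exact h1 h
      · rw [pend_inr_inl] at hxy
        subst hxy
        intro h
        simp only at h
        split_ifs at h with h1
        · rw [h1] at h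
          simp at h
        · exact h1 h.symm
      · exact absurd hxy (pend_inr_inr a p q)
    exact hcol.chromaticNumber_le
  · have φ : (⊤ : SimpleGraph (Fin k)) →g pend a :=
      ⟨fun i => Sum.inl i, fun {i j} h => (pend_inl_inl a i j).2 h⟩
    have h1 := SimpleGraph.chromaticNumber_mono_of_hom φ
    rw [SimpleGraph.chromaticNumber_top, Fintype.card_fin] at h1
    exact h1

/-- There is a polynomial `p`, namely `p(k) = 20000 k^4`, such that for every `k ≥ 4` every graph
on at least `p(k)` vertices obtained from `K_k` by adding pendant edges is a bonbon. -/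
theorem result : ∃ p : Polynomial ℕ, (∀ k, p.eval k = 20000 * k ^ 4) ∧
    ∀ k : ℕ, 4 ≤ k → ∀ (V : Type) [Fintype V] (H : SimpleGraph V), p.eval k ≤ Fintype.card V →
      IsPendantExtension (⊤ : SimpleGraph (Fin k)) H → IsBonbon H := by
  refine ⟨Polynomial.C 20000 * Polynomial.X ^ 4, fun k => by simp, ?_⟩
  intro k hk V _ H hcard hext
  have hcard' : 20000 * k^4 ≤ Fintype.card V := by simpa using hcard
  obtain ⟨s, hs, a, ⟨e⟩⟩ := exists_iso_pend H hext
  obtain ⟨r0, rfl⟩ : ∃ r0, k = r0 + 2 := ⟨k - 2, by omega⟩
  have hr0 : 2 ≤ r0 := by omega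
  have hs17 : 17000 * (r0+2)^4 ≤ s := by
    have h1 : r0 + 2 ≤ (r0+2)^4 := by
      calc r0 + 2 = (r0+2)^1 := (pow_one _).symm
        _ ≤ (r0+2)^4 := Nat.pow_le_pow_right (by omega) (by norm_num)
    omega
  refine ⟨(e.connected_iff).1 (pend_connected (by omega) a), r0 + 2, ?_, ?_⟩
  · have h1 := pend_chromatic (k := r0+2) (by omega) a
    have h2 : H.chromaticNumber = (pend a).chromaticNumber :=
      le_antisymm (SimpleGraph.chromaticNumber_mono_of_hom e.symm.toHom)
        (SimpleGraph.chromaticNumber_mono_of_hom e.toHom)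
    rw [h2, h1]
  · refine ⟨(r0+1) * ((1000 * (r0+2)^2)^3 * 16^(r0+2) * (r0 + 2 + s)) +
      (r0+1) * ((r0 + 2 + s) * (r0+1)^(r0+s)), ?_⟩
    intro n hn
    have hn1 : (r0+1) * ((1000 * (r0+2)^2)^3 * 16^(r0+2) * (r0 + 2 + s)) ≤ n := by omega
    have hn2 : (r0+1) * ((r0 + 2 + s) * (r0+1)^(r0+s)) ≤ n := by omega
    have hmain : ∀ R : SimpleGraph (Fin n),
        (∀ R' : SimpleGraph (Fin n), monoCopies H R ≤ monoCopies H R') →
        (Nonempty (R ≃g turanColouring n (r0+1)) ∨ Nonempty (Rᶜ ≃g turanColouring n (r0+1))) := by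
      intro R hR
      have hopt : Optimal (pend a) R := by
        intro R'
        rw [← monoCopies_eq H (pend a) e, ← monoCopies_eq H (pend a) e]
        exact hR R'
      have htc : (SimpleGraph.turanGraph n (r0+1))ᶜ = turanColouring n (r0+1) := by
        ext x y
        rw [SimpleGraph.compl_adj, SimpleGraph.turanGraph_adj, not_not]
        rfl
      have hcomp : ∀ G : SimpleGraph (Fin n), Nonempty (G ≃g SimpleGraph.turanGraph n (r0+1)) →
          Nonempty (Gᶜ ≃g turanColouring n (r0+1)) := by
        rintro G ⟨g⟩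
        rw [← htc]
        refine ⟨⟨g.toEquiv, ?_⟩⟩
        intro x y
        have h1 : (SimpleGraph.turanGraph n (r0+1)).Adj (g x) (g y) ↔ G.Adj x y := g.map_adj_iff
        have h2 : g x = g y ↔ x = y := g.injective.eq_iff
        show (SimpleGraph.turanGraph n (r0+1))ᶜ.Adj (g x) (g y) ↔ Gᶜ.Adj x y
        rw [SimpleGraph.compl_adj, SimpleGraph.compl_adj, h1, ne_eq, ne_eq, h2]
      rcases optimal_is_turan n r0 s hr0 hs17 hn1 hn2 a R hopt with h | h
      · right; exact hcomp R h
      · left
        have := hcomp Rᶜ h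
        rwa [compl_compl] at this
    have hsub : r0 + 2 - 1 = r0 + 1 := rfl
    intro R
    rw [hsub]
    constructor
    · exact hmain R
    · intro hR
      -- a minimiser exists
      obtain ⟨R0, hR0⟩ : ∃ R0 : SimpleGraph (Fin n), ∀ R', monoCopies H R0 ≤ monoCopies H R' :=
        Finite.exists_min (fun R : SimpleGraph (Fin n) => monoCopies H R)
      have h0 : monoCopies H R0 = monoCopies H (turanColouring n (r0+1)) := by
        rcases hmain R0 hR0 with hg | hg
        · obtain ⟨g⟩ := hg; exact monoCopies_iso H g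
        · obtain ⟨g⟩ := hg; rw [← monoCopies_compl]; exact monoCopies_iso H g
      have h1 : monoCopies H R = monoCopies H (turanColouring n (r0+1)) := by
        rcases hR with hg | hg
        · obtain ⟨g⟩ := hg; exact monoCopies_iso H g
        · obtain ⟨g⟩ := hg; rw [← monoCopies_compl]; exact monoCopies_iso H g
      intro R'
      rw [h1, ← h0]
      exact hR0 R'

end Pool.Agent.Results.MP_333fa2_co.Main
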